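import Pool.Agent.H12.UCR.Stmts

/-!
Row TWO of the board `ucr` (MP_e822af_an): the periodic word `a^n1 b^n2`.
-/

set_option autoImplicit false

open MeasureTheory Filter Topology

namespace Pool.UCR

/-- `e(t)` -/
noncomputable def two_E (t : ℝ) : ℂ := Complex.exp (2 * Real.pi * Complex.I * (t : ℂ))

theorem two_S (p L a j : ℕ) : S p L a j = (L : ℂ)⁻¹ * ∑ l ∈ Finset.range L,
    two_E ((j : ℝ) * ((a : ℝ) / ((p : ℝ) ^ L - 1)) * (p : ℝ) ^ l) := by
  unfold S two_E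
  congr 1
  refine Finset.sum_congr rfl fun l _ => ?_
  congr 2
  push_cast
  ring

theorem two_norm (t : ℝ) : ‖two_E t‖ = 1 := by
  unfold two_E
  have : 2 * (Real.pi : ℂ) * Complex.I * (t : ℂ) = ((2 * Real.pi * t : ℝ) : ℂ) * Complex.I := by
    push_cast; ring
  rw [this, Complex.norm_exp_ofReal_mul_I]

theorem two_add (s t : ℝ) : two_E (s + t) = two_E s * two_E t := by
  unfold two_E
  rw [← Complex.exp_add]
  congr 1
  push_cast
  ring

theorem two_nat (n : ℕ) : two_E (n : ℝ) = 1 := by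
  unfold two_E
  have : 2 * (Real.pi : ℂ) * Complex.I * ((n : ℝ) : ℂ) = n * (2 * (Real.pi : ℂ) * Complex.I) := by
    push_cast; ring
  rw [this]
  exact Complex.exp_nat_mul_two_pi_mul_I n

theorem two_add_nat (t : ℝ) (n : ℕ) : two_E (t + n) = two_E t := by
  rw [two_add, two_nat, mul_one]

theorem two_diff (s t : ℝ) : ‖two_E s - two_E t‖ ≤ 2 * Real.pi * |s - t| := by
  have h1 : two_E s = two_E t * two_E (s - t) := by rw [← two_add]; congr 1; ring
  have h2 : two_E s - two_E t = two_E t * (two_E (s - t) - 1) := by rw [h1]; ring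
  rw [h2, norm_mul, two_norm, one_mul]
  have h3 : two_E (s - t) = Complex.exp (Complex.I * ((2 * Real.pi * (s - t) : ℝ) : ℂ)) := by
    unfold two_E
    congr 1
    push_cast
    ring
  rw [h3]
  refine (Real.norm_exp_I_mul_ofReal_sub_one_le (x := 2 * Real.pi * (s - t))).trans ?_
  rw [Real.norm_eq_abs, abs_mul, abs_of_pos (by positivity : (0 : ℝ) < 2 * Real.pi)]

theorem two_geo (q n : ℕ) : q * ∑ i ∈ Finset.range n, (q + 1) ^ i + 1 = (q + 1) ^ n := by
  induction n with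
  | zero => simp
  | succ n ih =>
    rw [Finset.sum_range_succ, mul_add]
    calc q * ∑ i ∈ Finset.range n, (q + 1) ^ i + q * (q + 1) ^ n + 1
        = (q * ∑ i ∈ Finset.range n, (q + 1) ^ i + 1) + q * (q + 1) ^ n := by ring
      _ = (q + 1) ^ n + q * (q + 1) ^ n := by rw [ih]
      _ = (q + 1) ^ (n + 1) := by ring

theorem two_sum (p K : ℕ) (hp : 2 ≤ p) : ∑ l ∈ Finset.range K, (p : ℝ) ^ l ≤ (p : ℝ) ^ K := by
  have hp2 : (2 : ℝ) ≤ p := by exact_mod_cast hp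
  induction K with
  | zero => simp
  | succ K ih =>
    rw [Finset.sum_range_succ, pow_succ]
    have : (0 : ℝ) ≤ (p : ℝ) ^ K := by positivity
    nlinarith

theorem two_apx (p j K : ℕ) (hp : 2 ≤ p) (u v : ℝ) (h : |u - v| ≤ 1 / (p : ℝ) ^ K) :
    ‖∑ l ∈ Finset.range K, two_E ((j : ℝ) * u * (p : ℝ) ^ l) -
      ∑ l ∈ Finset.range K, two_E ((j : ℝ) * v * (p : ℝ) ^ l)‖ ≤ 2 * Real.pi * j := by
  have hp0 : (0 : ℝ) < p := by
    have : 0 < p := by omega
    exact_mod_cast this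
  have hpK : (0 : ℝ) < (p : ℝ) ^ K := by positivity
  rw [← Finset.sum_sub_distrib]
  refine (norm_sum_le _ _).trans ?_
  have h1 : ∀ l ∈ Finset.range K, ‖two_E ((j : ℝ) * u * (p : ℝ) ^ l) -
      two_E ((j : ℝ) * v * (p : ℝ) ^ l)‖ ≤ (2 * Real.pi * j / (p : ℝ) ^ K) * (p : ℝ) ^ l := by
    intro l _
    refine (two_diff _ _).trans ?_
    have e1 : (j : ℝ) * u * (p : ℝ) ^ l - (j : ℝ) * v * (p : ℝ) ^ l =
        ((j : ℝ) * (p : ℝ) ^ l) * (u - v) := by ring
    rw [e1, abs_mul, abs_of_nonneg (by positivity : (0 : ℝ) ≤ (j : ℝ) * (p : ℝ) ^ l)]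
    calc 2 * Real.pi * ((j : ℝ) * (p : ℝ) ^ l * |u - v|)
        ≤ 2 * Real.pi * ((j : ℝ) * (p : ℝ) ^ l * (1 / (p : ℝ) ^ K)) := by
          refine mul_le_mul_of_nonneg_left ?_ (by positivity)
          exact mul_le_mul_of_nonneg_left h (by positivity)
      _ = (2 * Real.pi * j / (p : ℝ) ^ K) * (p : ℝ) ^ l := by ring
  refine (Finset.sum_le_sum h1).trans ?_
  rw [← Finset.mul_sum]
  calc (2 * Real.pi * j / (p : ℝ) ^ K) * ∑ l ∈ Finset.range K, (p : ℝ) ^ l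
      ≤ (2 * Real.pi * j / (p : ℝ) ^ K) * (p : ℝ) ^ K :=
        mul_le_mul_of_nonneg_left (two_sum p K hp) (by positivity)
    _ = 2 * Real.pi * j := by field_simp

theorem two_per (p L q a j n : ℕ) (hq : p ^ L = q + 1) (hq1 : 1 ≤ q) :
    ∑ l ∈ Finset.range (L * n), two_E ((j : ℝ) * ((a : ℝ) / q) * (p : ℝ) ^ l) =
      n * ∑ l ∈ Finset.range L, two_E ((j : ℝ) * ((a : ℝ) / q) * (p : ℝ) ^ l) := by
  have hq0 : (q : ℝ) ≠ 0 := by
    have : q ≠ 0 := by omega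
    exact_mod_cast this
  induction n with
  | zero => simp
  | succ n ih =>
    rw [mul_add, mul_one, Finset.sum_range_add, ih]
    have h1 : ∀ l ∈ Finset.range L, two_E ((j : ℝ) * ((a : ℝ) / q) * (p : ℝ) ^ (L * n + l)) =
        two_E ((j : ℝ) * ((a : ℝ) / q) * (p : ℝ) ^ l) := by
      intro l _
      have hg : (q : ℝ) * ((∑ i ∈ Finset.range n, (q + 1) ^ i : ℕ) : ℝ) + 1 =
          (p : ℝ) ^ (L * n) := by
        have e := two_geo q n
        have e2 : p ^ (L * n) = (q + 1) ^ n := by rw [pow_mul, hq]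
        have e3 : q * ∑ i ∈ Finset.range n, (q + 1) ^ i + 1 = p ^ (L * n) := by rw [e2]; exact e
        exact_mod_cast e3
      obtain ⟨g, hgd⟩ : ∃ g : ℕ, g = ∑ i ∈ Finset.range n, (q + 1) ^ i := ⟨_, rfl⟩
      rw [← hgd] at hg
      have e1 : (j : ℝ) * ((a : ℝ) / q) * (p : ℝ) ^ (L * n + l) =
          (j : ℝ) * ((a : ℝ) / q) * (p : ℝ) ^ l + ((j * a * g * p ^ l : ℕ) : ℝ) := by
        rw [pow_add, ← hg]
        push_cast
        field_simp
        ring
      rw [e1, two_add_nat]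
    rw [Finset.sum_congr rfl h1]
    push_cast
    ring

theorem two_thm : TWOS := by
  intro p L n1 n2 a b hp hL hn1 hn2 ha hb
  have hP : 2 ≤ p ^ L := by
    calc 2 ≤ p := hp
      _ = p ^ 1 := (pow_one p).symm
      _ ≤ p ^ L := Nat.pow_le_pow_right (by omega) hL
  obtain ⟨q, hq⟩ : ∃ q, p ^ L = q + 1 := ⟨p ^ L - 1, by omega⟩
  have hq1 : 1 ≤ q := by omega
  have haq : a ≤ q := by omega
  have hbq : b ≤ q := by omega
  obtain ⟨g1, hg1⟩ : ∃ g : ℕ, g = ∑ i ∈ Finset.range n1, (q + 1) ^ i := ⟨_, rfl⟩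
  obtain ⟨g2, hg2⟩ : ∃ g : ℕ, g = ∑ i ∈ Finset.range n2, (q + 1) ^ i := ⟨_, rfl⟩
  have hG1 : q * g1 + 1 = (q + 1) ^ n1 := by rw [hg1]; exact two_geo q n1
  have hG2 : q * g2 + 1 = (q + 1) ^ n2 := by rw [hg2]; exact two_geo q n2
  have hQ : p ^ (L * (n1 + n2)) = (q + 1) ^ n1 * (q + 1) ^ n2 := by
    rw [pow_mul, hq, pow_add]
  refine ⟨a * (q + 1) ^ n2 * g1 + b * g2, ?_, ?_⟩
  · rw [hQ]
    have h1 : a * (q + 1) ^ n2 * g1 ≤ (q + 1) ^ n2 * (q * g1) := by
      calc a * (q + 1) ^ n2 * g1 = a * ((q + 1) ^ n2 * g1) := by ring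
        _ ≤ q * ((q + 1) ^ n2 * g1) := Nat.mul_le_mul_right _ haq
        _ = (q + 1) ^ n2 * (q * g1) := by ring
    have h2 : b * g2 ≤ q * g2 := Nat.mul_le_mul_right _ hbq
    have h3 : (q + 1) ^ n1 * (q + 1) ^ n2 = (q + 1) ^ n2 * (q * g1) + (q + 1) ^ n2 := by
      rw [← hG1]; ring
    omega
  · intro j
    obtain ⟨P1, hP1⟩ : ∃ P1 : ℝ, P1 = ((q : ℝ) + 1) ^ n1 := ⟨_, rfl⟩
    obtain ⟨P2, hP2⟩ : ∃ P2 : ℝ, P2 = ((q : ℝ) + 1) ^ n2 := ⟨_, rfl⟩
    have hq0 : (0 : ℝ) < q := by exact_mod_cast hq1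
    have hpL : (p : ℝ) ^ L = (q : ℝ) + 1 := by exact_mod_cast hq
    have hR1 : (q : ℝ) * g1 + 1 = P1 := by rw [hP1]; exact_mod_cast hG1
    have hR2 : (q : ℝ) * g2 + 1 = P2 := by rw [hP2]; exact_mod_cast hG2
    have hPn1 : (p : ℝ) ^ (L * n1) = P1 := by rw [pow_mul, hpL, hP1]
    have hPn2 : (p : ℝ) ^ (L * n2) = P2 := by rw [pow_mul, hpL, hP2]
    have hPn : (p : ℝ) ^ (L * (n1 + n2)) = P1 * P2 := by
      rw [mul_add, pow_add, hPn1, hPn2]
    have hP1g : 1 < P1 := by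
      rw [hP1]
      exact one_lt_pow₀ (by linarith) (by omega)
    have hP2g : 1 < P2 := by
      rw [hP2]
      exact one_lt_pow₀ (by linarith) (by omega)
    have hPP : 0 < P1 * P2 - 1 := by nlinarith
    have haR : (a : ℝ) ≤ q := by exact_mod_cast haq
    have hbR : (b : ℝ) ≤ q := by exact_mod_cast hbq
    have ha0 : (0 : ℝ) ≤ a := Nat.cast_nonneg a
    have hb0 : (0 : ℝ) ≤ b := Nat.cast_nonneg b
    have hab : |(b : ℝ) - a| ≤ q := by rw [abs_le]; constructor <;> linarith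
    obtain ⟨x, hx⟩ : ∃ x : ℝ, x = ((a * (q + 1) ^ n2 * g1 + b * g2 : ℕ) : ℝ) / (P1 * P2 - 1) :=
      ⟨_, rfl⟩
    have hxc : ((a * (q + 1) ^ n2 * g1 + b * g2 : ℕ) : ℝ) = a * P2 * g1 + b * g2 := by
      rw [hP2]; push_cast; ring
    have hg1R : (g1 : ℝ) = (P1 - 1) / q := by
      rw [← hR1]; field_simp; ring
    have hg2R : (g2 : ℝ) = (P2 - 1) / q := by
      rw [← hR2]; field_simp; ring
    have hx1 : x - a / q = ((b : ℝ) - a) * (P2 - 1) / (q * (P1 * P2 - 1)) := by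
      obtain ⟨D, hD⟩ : ∃ D : ℝ, D = P1 * P2 - 1 := ⟨_, rfl⟩
      have hD0 : D ≠ 0 := by rw [hD]; exact hPP.ne'
      rw [hx, hxc, hg1R, hg2R, ← hD]
      field_simp
      rw [hD]
      ring
    have hx2 : x * P1 = ((b : ℝ) / q + (a - b) * (P1 - 1) / (q * (P1 * P2 - 1))) + (a * g1 : ℕ) := by
      obtain ⟨D, hD⟩ : ∃ D : ℝ, D = P1 * P2 - 1 := ⟨_, rfl⟩
      have hD0 : D ≠ 0 := by rw [hD]; exact hPP.ne'
      rw [hx, hxc]
      push_cast
      rw [hg1R, hg2R, ← hD]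
      field_simp
      rw [hD]
      ring
    obtain ⟨y, hy⟩ : ∃ y : ℝ, y = (b : ℝ) / q + (a - b) * (P1 - 1) / (q * (P1 * P2 - 1)) :=
      ⟨_, rfl⟩
    rw [← hy] at hx2
    have hb1 : |x - a / q| ≤ 1 / (p : ℝ) ^ (L * n1) := by
      rw [hx1, hPn1, abs_div, abs_mul, abs_of_pos (by linarith : (0 : ℝ) < P2 - 1),
        abs_of_pos (by positivity : (0 : ℝ) < q * (P1 * P2 - 1)),
        div_le_div_iff₀ (by positivity) (by linarith)]
      have e1 : |(b : ℝ) - a| * (P2 - 1) * P1 ≤ q * ((P2 - 1) * P1) := by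
        rw [mul_assoc]
        exact mul_le_mul_of_nonneg_right hab (mul_nonneg (by linarith) (by linarith))
      have e2 : (P2 - 1) * P1 ≤ P1 * P2 - 1 := by nlinarith
      have e3 : (q : ℝ) * ((P2 - 1) * P1) ≤ q * (P1 * P2 - 1) :=
        mul_le_mul_of_nonneg_left e2 hq0.le
      linarith
    have hb2 : |y - b / q| ≤ 1 / (p : ℝ) ^ (L * n2) := by
      have e0 : y - b / q = (a - b) * (P1 - 1) / (q * (P1 * P2 - 1)) := by rw [hy]; ring
      rw [e0, hPn2, abs_div, abs_mul, abs_of_pos (by linarith : (0 : ℝ) < P1 - 1),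
        abs_of_pos (by positivity : (0 : ℝ) < q * (P1 * P2 - 1)),
        div_le_div_iff₀ (by positivity) (by linarith), abs_sub_comm]
      have e1 : |(b : ℝ) - a| * (P1 - 1) * P2 ≤ q * ((P1 - 1) * P2) := by
        rw [mul_assoc]
        exact mul_le_mul_of_nonneg_right hab (mul_nonneg (by linarith) (by linarith))
      have e2 : (P1 - 1) * P2 ≤ P1 * P2 - 1 := by nlinarith
      have e3 : (q : ℝ) * ((P1 - 1) * P2) ≤ q * (P1 * P2 - 1) :=
        mul_le_mul_of_nonneg_left e2 hq0.le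
      linarith
    have hA := two_apx p j (L * n1) hp x (a / q) hb1
    have hB := two_apx p j (L * n2) hp y (b / q) hb2
    rw [two_per p L q a j n1 hq hq1] at hA
    rw [two_per p L q b j n2 hq hq1] at hB
    have hpq : (p : ℝ) ^ L - 1 = q := by rw [hpL]; ring
    have hSa : (L : ℂ) * S p L a j =
        ∑ l ∈ Finset.range L, two_E ((j : ℝ) * ((a : ℝ) / q) * (p : ℝ) ^ l) := by
      rw [two_S, hpq]
      have : (L : ℂ) ≠ 0 := by
        have : L ≠ 0 := by omega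
        exact_mod_cast this
      field_simp
    have hSb : (L : ℂ) * S p L b j =
        ∑ l ∈ Finset.range L, two_E ((j : ℝ) * ((b : ℝ) / q) * (p : ℝ) ^ l) := by
      rw [two_S, hpq]
      have : (L : ℂ) ≠ 0 := by
        have : L ≠ 0 := by omega
        exact_mod_cast this
      field_simp
    rw [← hSa] at hA
    rw [← hSb] at hB
    have hsplit : ∑ l ∈ Finset.range (L * (n1 + n2)), two_E ((j : ℝ) * x * (p : ℝ) ^ l) =
        ∑ l ∈ Finset.range (L * n1), two_E ((j : ℝ) * x * (p : ℝ) ^ l) +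
          ∑ l ∈ Finset.range (L * n2), two_E ((j : ℝ) * y * (p : ℝ) ^ l) := by
      rw [mul_add, Finset.sum_range_add]
      congr 1
      refine Finset.sum_congr rfl fun l _ => ?_
      have e1 : (j : ℝ) * x * (p : ℝ) ^ (L * n1 + l) =
          (j : ℝ) * y * (p : ℝ) ^ l + ((j * (a * g1) * p ^ l : ℕ) : ℝ) := by
        rw [pow_add, hPn1]
        have : (j : ℝ) * x * (P1 * (p : ℝ) ^ l) = (j : ℝ) * (x * P1) * (p : ℝ) ^ l := by ring
        rw [this, hx2]
        push_cast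
        ring
      rw [e1, two_add_nat]
    have hT0 : ((L * (n1 + n2) : ℕ) : ℂ) ≠ 0 := by
      have : L * (n1 + n2) ≠ 0 := Nat.mul_ne_zero (by omega) (by omega)
      exact_mod_cast this
    have hL0 : (L : ℂ) ≠ 0 := by
      have : L ≠ 0 := by omega
      exact_mod_cast this
    have hn0 : (n1 : ℂ) + n2 ≠ 0 := by
      have : n1 + n2 ≠ 0 := by omega
      exact_mod_cast this
    have key : S p (L * (n1 + n2)) (a * (q + 1) ^ n2 * g1 + b * g2) j -
        ((n1 : ℂ) * S p L a j + (n2 : ℂ) * S p L b j) / ((n1 : ℂ) + n2) =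
        ((L * (n1 + n2) : ℕ) : ℂ)⁻¹ *
          ((∑ l ∈ Finset.range (L * n1), two_E ((j : ℝ) * x * (p : ℝ) ^ l) -
            n1 * ((L : ℂ) * S p L a j)) +
          (∑ l ∈ Finset.range (L * n2), two_E ((j : ℝ) * y * (p : ℝ) ^ l) -
            n2 * ((L : ℂ) * S p L b j))) := by
      have e1 : ((n1 : ℂ) * S p L a j + (n2 : ℂ) * S p L b j) / ((n1 : ℂ) + n2) =
          ((L * (n1 + n2) : ℕ) : ℂ)⁻¹ * (n1 * ((L : ℂ) * S p L a j) +
            n2 * ((L : ℂ) * S p L b j)) := by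
        push_cast
        field_simp
      rw [e1, two_S p (L * (n1 + n2)), hPn, ← hx, hsplit]
      ring
    rw [key, norm_mul, norm_inv, Complex.norm_natCast]
    have hTR : (0 : ℝ) < ((L * (n1 + n2) : ℕ) : ℝ) := by
      have : 0 < L * (n1 + n2) := Nat.mul_pos (by omega) (by omega)
      exact_mod_cast this
    have hpi : Real.pi < 3.15 := Real.pi_lt_d2
    have hj0 : (0 : ℝ) ≤ j := Nat.cast_nonneg j
    have hn := norm_add_le (∑ l ∈ Finset.range (L * n1), two_E ((j : ℝ) * x * (p : ℝ) ^ l) -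
            n1 * ((L : ℂ) * S p L a j))
          (∑ l ∈ Finset.range (L * n2), two_E ((j : ℝ) * y * (p : ℝ) ^ l) -
            n2 * ((L : ℂ) * S p L b j))
    have hfin : ‖(∑ l ∈ Finset.range (L * n1), two_E ((j : ℝ) * x * (p : ℝ) ^ l) -
            n1 * ((L : ℂ) * S p L a j)) +
          (∑ l ∈ Finset.range (L * n2), two_E ((j : ℝ) * y * (p : ℝ) ^ l) -
            n2 * ((L : ℂ) * S p L b j))‖ ≤ 13 * j := by
      have : 2 * Real.pi * j + 2 * Real.pi * j ≤ 13 * (j : ℝ) := by nlinarith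
      linarith
    calc ((L * (n1 + n2) : ℕ) : ℝ)⁻¹ * _ ≤ ((L * (n1 + n2) : ℕ) : ℝ)⁻¹ * (13 * j) :=
          mul_le_mul_of_nonneg_left hfin (by positivity)
      _ = 13 * j / (L * (n1 + n2)) := by
          push_cast
          rw [inv_mul_eq_div]

end Pool.UCR
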